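import Pool.Agent.NFV.Main

/-!
# MP_32850b_lc: the algebraic numbers of certain NIP ordered fields form a real closed field

Partial answer to Q1.  `NFV.Lor` is the language of ordered rings, `NFV.NIP` the independence
property's negation for the complete theory of `K` (see `Pool/Agent/NFV/Defs.lean`).
-/

set_option autoImplicit false

open FirstOrder

namespace Pool.Agent.Results.MP_32850b_lc.RealClosed

/-- Let `K` be an ordered field whose theory in the language of ordered rings is NIP.  Suppose that
for every finite extension `M` of `K` and every prime `q` the elements of `M` algebraic over `ℚ`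
meet only finitely many classes of `M` modulo `q`-th powers.  Then the relative algebraic closure
of `ℚ` in `K` is real closed. -/
theorem result : ∀ (K : Type) [Field K] [LinearOrder K] [IsStrictOrderedRing K]
    [Ring.CompatibleRing K] [Language.order.Structure K] [Language.order.OrderedStructure K],
    NFV.NIP K →
    (∀ (M : Type) [Field M] [Algebra K M] [FiniteDimensional K M] [CharZero M] (q : ℕ), q.Prime →
      ∃ C : Finset M, ∀ z : M, z ≠ 0 → IsAlgebraic ℚ z → ∃ c ∈ C, ∃ y : M, z = c * y ^ q) →
    IsRealClosed (algebraicClosure ℚ K) :=
  NFV.rcf_all

end Pool.Agent.Results.MP_32850b_lc.RealClosed
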