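import Pool.Agent.NFV.Main

/-!
# MP_32850b_lc: positive algebraic numbers in NIP ordered fields are squares

Partial answer to Q1.  `NFV.Lor` is the language of ordered rings, `NFV.NIP` the independence
property's negation for the complete theory of `K` (see `Pool/Agent/NFV/Defs.lean`).
-/

set_option autoImplicit false

open FirstOrder

namespace Pool.Agent.Results.MP_32850b_lc.Squares

/-- Let `K` be an ordered field whose theory in the language of ordered rings is NIP, such that the
elements of `K` algebraic over `ℚ` meet only finitely many square classes of `K`.  Then every
positive element of `K` algebraic over `ℚ` is a square in `K`. -/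
theorem result : ∀ (K : Type) [Field K] [LinearOrder K] [IsStrictOrderedRing K]
    [Ring.CompatibleRing K] [Language.order.Structure K] [Language.order.OrderedStructure K],
    NFV.NIP K →
    (∃ C : Finset K, ∀ a : K, a ≠ 0 → IsAlgebraic ℚ a → ∃ c ∈ C, ∃ y : K, a = c * y ^ 2) →
    ∀ a : K, 0 < a → IsAlgebraic ℚ a → IsSquare a :=
  NFV.sqr_all

end Pool.Agent.Results.MP_32850b_lc.Squares
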