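import Pool.Agent.NST.MainB
import Pool.Agent.NST.State

/-!
# MP_32850b_lc: strongly NIP ordered fields and unit power classes

Partial answer to Q1: for strongly NIP ordered fields (even for NIP ordered fields) being almost real
closed is equivalent to an explicit finiteness condition.  Definitions:
`Pool/Agent/NST/State.lean`.
-/

set_option autoImplicit false

open FirstOrder

namespace Pool.Agent.Results.MP_32850b_lc.UnitClasses

open Pool.Agent.NST.State

/-- Let `K` be an ordered field whose theory in the language of ordered rings is strongly NIP, or
only NIP.  Then `K` is almost real closed if and only if in each finite extension of `K`, for each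
prime `q`, the units over the natural valuation ring of `K` meet only finitely many classes modulo
`q`-th powers. -/
theorem result : ∀ (K : Type) [Field K] [LinearOrder K] [IsStrictOrderedRing K]
    [Ring.CompatibleRing K] [Language.order.Structure K] [Language.order.OrderedStructure K],
    (StronglyNIP K ∨ NIP K) → (AlmostRealClosed K ↔ FiniteUnitClasses K) :=
  NST.main

end Pool.Agent.Results.MP_32850b_lc.UnitClasses
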